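import Pool.Agent.H370R2.Digamma
import Pool.Agent.Q286.GB.Stm2

set_option autoImplicit false

/-!
Job GAM of project GB: the gamma factors.
-/

namespace Pool.Agent.Q66.GB

open Complex MeasureTheory Filter Topology Set
open H370.DG
open Pool.Agent.Q286.GB (gam S_GAM)

theorem one_le_log (y : ℝ) : 1 ≤ Real.log (|y| + 16) := by
  have h1 : Real.exp 1 ≤ |y| + 16 := by
    have := Real.exp_one_lt_d9
    have h2 := abs_nonneg y
    linarith
  exact (Real.le_log_iff_exp_le (by have := abs_nonneg y; linarith)).2 h1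

/-- the digamma function in strips of the right half-plane -/
theorem dg_bound (c B : ℝ) (hc : 0 < c) : ∃ C : ℝ, 0 < C ∧ ∀ z : ℂ, c ≤ z.re → z.re ≤ B →
    ‖logDeriv Gamma z‖ ≤ C * Real.log (|z.im| + 16) := by
  have hS : 0 ≤ ∑' n : ℕ, 1 / ((n : ℝ) + 1) ^ 2 := tsum_nonneg fun n => by positivity
  have hB0 : 0 ≤ Real.log (|B| + 1) := Real.log_nonneg (by have := abs_nonneg B; linarith)
  refine ⟨Real.log (|B| + 1) + 1 + Real.pi + 1 / c + 1 + ∑' n : ℕ, 1 / ((n : ℝ) + 1) ^ 2,
    by positivity, fun z hz1 hz2 => ?_⟩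
  have hz : 0 < z.re := lt_of_lt_of_le hc hz1
  have hl := one_le_log z.im
  set l : ℝ := Real.log (|z.im| + 16) with hldef
  have hi0 := abs_nonneg z.im
  have hBB := abs_nonneg B
  have b1 : ‖1 / z‖ ≤ 1 / c := by
    rw [norm_div, norm_one]
    apply one_div_le_one_div_of_le hc
    exact hz1.trans (Complex.re_le_norm z)
  have b2 : ‖1 / (z + 1)‖ ≤ 1 := by
    rw [norm_div, norm_one]
    have h1 : (1 : ℝ) ≤ ‖z + 1‖ := by
      have h2 := Complex.re_le_norm (z + 1)
      rw [add_re, one_re] at h2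
      linarith
    rw [div_le_one (by linarith)]
    exact h1
  have hn2 : 2 ≤ ‖z + 2‖ := by
    have h2 := Complex.re_le_norm (z + 2)
    rw [add_re, re_ofNat] at h2
    linarith
  have hn3 : ‖z + 2‖ ≤ (|B| + 1) * (|z.im| + 16) := by
    refine (norm_le_abs_re_add_abs_im (z + 2)).trans ?_
    simp only [add_re, re_ofNat, add_im, im_ofNat, add_zero]
    rw [abs_of_nonneg (by linarith)]
    have h3 : B ≤ |B| := le_abs_self B
    nlinarith
  have b3 : ‖log (z + 2)‖ ≤ Real.log (|B| + 1) + l + Real.pi := by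
    have e : log (z + 2) = ((Real.log ‖z + 2‖ : ℝ) : ℂ) + (arg (z + 2) : ℂ) * I := rfl
    rw [e]
    refine (norm_add_le _ _).trans (add_le_add ?_ ?_)
    · rw [Complex.norm_real, Real.norm_eq_abs, abs_of_nonneg (Real.log_nonneg (by linarith)),
        hldef, ← Real.log_mul (by linarith) (by linarith)]
      exact Real.log_le_log (by linarith) hn3
    · rw [norm_mul, norm_I, mul_one, Complex.norm_real, Real.norm_eq_abs]
      exact abs_arg_le_pi _
  rw [logDeriv_Gamma' hz]
  calc _ ≤ ‖log (z + 2) - 1 / z - 1 / (z + 1)‖ + ‖∑' n, er n z‖ := norm_add_le _ _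
    _ ≤ (‖log (z + 2) - 1 / z‖ + ‖1 / (z + 1)‖) + ‖∑' n, er n z‖ := by
        gcongr
        exact norm_sub_le _ _
    _ ≤ ((‖log (z + 2)‖ + ‖1 / z‖) + ‖1 / (z + 1)‖) + ‖∑' n, er n z‖ := by
        gcongr
        exact norm_sub_le _ _
    _ ≤ ((Real.log (|B| + 1) + l + Real.pi + 1 / c) + 1) + ∑' n : ℕ, 1 / ((n : ℝ) + 1) ^ 2 := by
        gcongr
        exact norm_tsum_er hz
    _ = l + (Real.log (|B| + 1) + Real.pi + 1 / c + 1 + ∑' n : ℕ, 1 / ((n : ℝ) + 1) ^ 2) * 1 := by
        ring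
    _ ≤ l + (Real.log (|B| + 1) + Real.pi + 1 / c + 1 + ∑' n : ℕ, 1 / ((n : ℝ) + 1) ^ 2) * l := by
        gcongr
    _ = _ := by ring

/-- the logarithmic derivative of `Γ_ℝ` -/
noncomputable def dgr (z : ℂ) : ℂ := -(Real.log Real.pi : ℂ) / 2 + 1 / 2 * logDeriv Gamma (z / 2)

theorem gr_ne {z : ℂ} (hz : 0 < z.re) : Gammaℝ z ≠ 0 := Gammaℝ_ne_zero_of_re_pos hz

theorem gr_hd {z : ℂ} (hz : 0 < z.re) : HasDerivAt Gammaℝ (Gammaℝ z * dgr z) z := by
  have hpi : (Real.pi : ℂ) ≠ 0 := ofReal_ne_zero.mpr Real.pi_ne_zero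
  have hz2 : 0 < (z / 2).re := by
    have : (z / 2).re = z.re / 2 := by simp
    rw [this]
    positivity
  have hne : ∀ m : ℕ, z / 2 ≠ -m := by
    intro m h
    rw [h] at hz2
    simp at hz2
    have : (0 : ℝ) ≤ m := Nat.cast_nonneg m
    linarith
  have d1 : HasDerivAt (fun z : ℂ => (Real.pi : ℂ) ^ (-z / 2))
      ((Real.pi : ℂ) ^ (-z / 2) * log (Real.pi : ℂ) * (-1 / 2)) z := by
    have h1 : HasDerivAt (fun z : ℂ => -z / 2) (-1 / 2) z := by
      simpa using ((hasDerivAt_id z).neg).div_const 2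
    exact h1.const_cpow (Or.inl hpi)
  have d2 : HasDerivAt (fun z : ℂ => Gamma (z / 2)) (deriv Gamma (z / 2) * (1 / 2)) z := by
    have h1 : HasDerivAt (fun z : ℂ => z / 2) (1 / 2) z := by
      simpa using (hasDerivAt_id z).div_const 2
    exact HasDerivAt.comp z (differentiableAt_Gamma _ hne).hasDerivAt h1
  have hG : Gammaℝ = fun z : ℂ => (Real.pi : ℂ) ^ (-z / 2) * Gamma (z / 2) := by
    funext z
    rw [Gammaℝ_def]
  have d3 := d1.mul d2
  have hΓ : Gamma (z / 2) ≠ 0 := Gamma_ne_zero hne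
  rw [hG]
  refine d3.congr_deriv ?_
  unfold dgr
  rw [logDeriv_apply, ← Complex.ofReal_log Real.pi_pos.le]
  field_simp

/-- the logarithmic derivative of the gamma factor -/
noncomputable def dgam {m : ℕ} (N : ℝ) (μ : Fin m → ℂ) (s : ℂ) : ℂ :=
  (Real.log N : ℂ) / 2 + ∑ j, dgr (s - μ j)

theorem gam_ne {m : ℕ} {N : ℝ} {μ : Fin m → ℂ} {s : ℂ} (hN : 0 < N)
    (hs : ∀ j, 0 < (s - μ j).re) : gam N μ s ≠ 0 := by
  unfold gam
  refine mul_ne_zero ?_ (Finset.prod_ne_zero_iff.2 fun j _ => gr_ne (hs j))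
  rw [Ne, cpow_eq_zero_iff]
  intro h
  exact hN.ne' (by exact_mod_cast h.1)

theorem gam_hd {m : ℕ} {N : ℝ} {μ : Fin m → ℂ} {s : ℂ} (hN : 0 < N)
    (hs : ∀ j, 0 < (s - μ j).re) : HasDerivAt (gam N μ) (gam N μ s * dgam N μ s) s := by
  have hNC : (N : ℂ) ≠ 0 := by exact_mod_cast hN.ne'
  have d1 : HasDerivAt (fun z : ℂ => (N : ℂ) ^ (z / 2))
      ((N : ℂ) ^ (s / 2) * log (N : ℂ) * (1 / 2)) s := by
    have h1 : HasDerivAt (fun z : ℂ => z / 2) (1 / 2) s := by
      simpa using (hasDerivAt_id s).div_const 2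
    exact h1.const_cpow (Or.inl hNC)
  have d2 : HasDerivAt (fun z : ℂ => ∏ j, Gammaℝ (z - μ j))
      (∑ j, (∏ i ∈ Finset.univ.erase j, Gammaℝ (s - μ i)) • (Gammaℝ (s - μ j) * dgr (s - μ j))) s := by
    refine HasDerivAt.fun_finsetProd fun j _ => ?_
    have h1 : HasDerivAt (fun z : ℂ => z - μ j) 1 s := (hasDerivAt_id s).sub_const (μ j)
    have h2 := HasDerivAt.comp s (gr_hd (hs j)) h1
    rw [mul_one] at h2
    exact h2
  have d3 := d1.mul d2
  refine d3.congr_deriv ?_
  have h1 : ∑ j, (∏ i ∈ Finset.univ.erase j, Gammaℝ (s - μ i)) •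
      (Gammaℝ (s - μ j) * dgr (s - μ j)) = (∏ j, Gammaℝ (s - μ j)) * ∑ j, dgr (s - μ j) := by
    rw [Finset.mul_sum]
    refine Finset.sum_congr rfl fun j hj => ?_
    rw [smul_eq_mul, ← mul_assoc, Finset.prod_erase_mul _ _ hj]
  rw [h1]
  unfold dgam gam
  rw [← Complex.ofReal_log hN.le]
  ring

theorem t_GAM : S_GAM := by
  intro m N μ η hN hη hμ
  refine ⟨fun s hs => ?_, fun B => ?_⟩
  · have h1 : ∀ j, 0 < (s - μ j).re := by
      intro j
      rw [sub_re]
      have := hμ j
      linarith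
    exact ⟨(gam_hd hN h1).differentiableAt, gam_ne hN h1⟩
  · have h2 : ∀ j, ∃ C : ℝ, 0 < C ∧ ∀ z : ℂ, η / 4 ≤ z.re → z.re ≤ (B - (μ j).re) / 2 →
        ‖logDeriv Gamma z‖ ≤ C * Real.log (|z.im| + 16) := fun j => dg_bound _ _ (by positivity)
    choose C hC hCb using h2
    set D : Fin m → ℝ := fun j => |Real.log Real.pi| / 2 +
      1 / 2 * (C j * (Real.log (1 + |(μ j).im|) + 1)) with hD
    have hD0 : ∀ j, 0 ≤ D j := by
      intro j
      have h3 := (hC j).le
      have h4 : 0 ≤ Real.log (1 + |(μ j).im|) := Real.log_nonneg (by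
        have := abs_nonneg (μ j).im
        linarith)
      rw [hD]
      positivity
    refine ⟨|Real.log N| / 2 + ∑ j, D j + 1, ?_, fun s hs1 hs2 => ?_⟩
    · have := Finset.sum_nonneg fun j (_ : j ∈ (Finset.univ : Finset (Fin m))) => hD0 j
      positivity
    have h1 : ∀ j, 0 < (s - μ j).re := by
      intro j
      rw [sub_re]
      have := hμ j
      linarith
    rw [(gam_hd hN h1).deriv, norm_mul, mul_comm]
    refine mul_le_mul_of_nonneg_right ?_ (norm_nonneg _)
    have hl := one_le_log s.im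
    set l : ℝ := Real.log (|s.im| + 16) with hldef
    have hterm : ∀ j, ‖dgr (s - μ j)‖ ≤ D j * l := by
      intro j
      have hre : ((s - μ j) / 2).re = (s.re - (μ j).re) / 2 := by simp
      have him : ((s - μ j) / 2).im = (s.im - (μ j).im) / 2 := by simp
      have h3 := hCb j ((s - μ j) / 2) (by
        rw [hre]
        have := hμ j
        linarith) (by
        rw [hre]
        linarith)
      have hs0 := abs_nonneg s.im
      have hm0 := abs_nonneg (μ j).im
      have h4 : Real.log (|((s - μ j) / 2).im| + 16) ≤ (Real.log (1 + |(μ j).im|) + 1) * l := by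
        have h5 : |((s - μ j) / 2).im| + 16 ≤ (1 + |(μ j).im|) * (|s.im| + 16) := by
          rw [him, abs_div, abs_two]
          have h6 : |s.im - (μ j).im| ≤ |s.im| + |(μ j).im| := abs_sub _ _
          nlinarith
        have h7 : Real.log (|((s - μ j) / 2).im| + 16) ≤
            Real.log (1 + |(μ j).im|) + l := by
          rw [hldef, ← Real.log_mul (by linarith) (by linarith)]
          apply Real.log_le_log _ h5
          have := abs_nonneg ((s - μ j) / 2).im
          linarith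
        have h8 : 0 ≤ Real.log (1 + |(μ j).im|) := Real.log_nonneg (by linarith)
        nlinarith
      unfold dgr
      calc ‖-(Real.log Real.pi : ℂ) / 2 + 1 / 2 * logDeriv Gamma ((s - μ j) / 2)‖
          ≤ ‖-(Real.log Real.pi : ℂ) / 2‖ + ‖1 / 2 * logDeriv Gamma ((s - μ j) / 2)‖ :=
            norm_add_le _ _
        _ = |Real.log Real.pi| / 2 + 1 / 2 * ‖logDeriv Gamma ((s - μ j) / 2)‖ := by
            rw [norm_div, norm_neg, Complex.norm_real, Real.norm_eq_abs, norm_mul]
            simp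
        _ ≤ |Real.log Real.pi| / 2 * l +
            1 / 2 * (C j * ((Real.log (1 + |(μ j).im|) + 1) * l)) := by
            have h9 : 0 ≤ |Real.log Real.pi| := abs_nonneg _
            have h10 : |Real.log Real.pi| / 2 ≤ |Real.log Real.pi| / 2 * l := by nlinarith
            have h11 : ‖logDeriv Gamma ((s - μ j) / 2)‖ ≤
                C j * ((Real.log (1 + |(μ j).im|) + 1) * l) :=
              h3.trans (mul_le_mul_of_nonneg_left h4 (hC j).le)
            linarith
        _ = D j * l := by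
            rw [hD]
            ring
    unfold dgam
    calc ‖(Real.log N : ℂ) / 2 + ∑ j, dgr (s - μ j)‖
        ≤ ‖(Real.log N : ℂ) / 2‖ + ∑ j, ‖dgr (s - μ j)‖ :=
          (norm_add_le _ _).trans (add_le_add le_rfl (norm_sum_le _ _))
      _ ≤ |Real.log N| / 2 * l + ∑ j, D j * l := by
          refine add_le_add ?_ (Finset.sum_le_sum fun j _ => hterm j)
          rw [norm_div, Complex.norm_real, Real.norm_eq_abs]
          have h9 : 0 ≤ |Real.log N| := abs_nonneg _
          have h10 : ‖(2 : ℂ)‖ = 2 := by simp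
          rw [h10]
          nlinarith
      _ = (|Real.log N| / 2 + ∑ j, D j) * l := by
          rw [← Finset.sum_mul]
          ring
      _ ≤ (|Real.log N| / 2 + ∑ j, D j + 1) * l := by
          apply mul_le_mul_of_nonneg_right _ (by linarith)
          linarith

end Pool.Agent.Q66.GB
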