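import Pool.Agent.Q237.BD.Lim
import Pool.Agent.Q286.GB.Stm

set_option autoImplicit false

/-!
Job LIM of project GB: the limit near a zero, for every L-function.
-/

namespace Pool.Agent.Q66.GB

open Complex MeasureTheory Filter Topology Set
open Pool.Agent.Q286.BD (cl Lam ML Lap Wt V Fm Pl)
open Pool.Agent.Q237.BD (growth2 Lam_ge log_Lam_ge ML_le ML_nonneg Lam_mono integrable_bd)
open Pool.Agent.Q286.GB

/-- under RH the function is not identically zero near any point -/
theorem order_ne_top {O : LFn} (hRH : RH O) (s : ℂ) : analyticOrderAt O.L s ≠ ⊤ := by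
  intro h0
  have han : AnalyticOnNhd ℂ O.L Set.univ := by
    intro z _
    exact O.entire.analyticAt z
  rw [analyticOrderAt_eq_top] at h0
  have h1 := han.eqOn_zero_of_preconnected_of_eventuallyEq_zero isPreconnected_univ
    (Set.mem_univ s) h0
  exact hRH 1 (by norm_num) (h1 (Set.mem_univ 1))

/-- local factorisation at a point of the line, under RH -/
theorem local_fac {O : LFn} (hRH : RH O) (g : ℝ) :
    ∃ h : ℂ → ℂ, AnalyticAt ℂ h (cl g) ∧ h (cl g) ≠ 0 ∧
      ∀ᶠ z in 𝓝 (cl g), O.L z = (z - cl g) ^ mz O g * h z := by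
  have han : AnalyticAt ℂ O.L (cl g) := O.entire.analyticAt _
  obtain ⟨h, h1, h2, h3⟩ := (han.analyticOrderNatAt_eq_iff (order_ne_top hRH (cl g))).1
    (rfl : mz O g = mz O g)
  exact ⟨h, h1, h2, by simpa [smul_eq_mul] using h3⟩

theorem mz_pos {O : LFn} (hRH : RH O) {g : ℝ} (hg : O.L (cl g) = 0) : 1 ≤ mz O g := by
  by_contra hlt
  have h0 : mz O g = 0 := by omega
  obtain ⟨h, h1, h2, h3⟩ := local_fac hRH g
  have h4 := h3.self_of_nhds
  rw [hg, h0, pow_zero, one_mul] at h4
  exact h2 h4.symm

theorem ratio_lim {O : LFn} (hRH : RH O) {g : ℝ} (x K : ℝ) :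
    Tendsto (fun L : ℝ => O.L (cl (g + x / L)) * (O.L (cl (g + x / L) + (1 + K * I) / L))⁻¹)
      atTop (𝓝 ((x * I / (x * I + (1 + K * I))) ^ mz O g)) := by
  obtain ⟨h, h1, h2, h3⟩ := local_fac hRH g
  set m := mz O g with hm
  have hw : (x * I + (1 + K * I) : ℂ) ≠ 0 := by
    intro h0
    have := congrArg Complex.re h0
    simp at this
  have t0 : ∀ w : ℂ, Tendsto (fun L : ℝ => cl g + w / L) atTop (𝓝 (cl g)) := by
    intro w
    have h4 : Tendsto (fun L : ℝ => w / (L : ℂ)) atTop (𝓝 0) := by
      rw [tendsto_zero_iff_norm_tendsto_zero]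
      have h5 : Tendsto (fun L : ℝ => ‖w‖ / L) atTop (𝓝 0) := tendsto_id.const_div_atTop _
      refine h5.congr' ?_
      filter_upwards [eventually_gt_atTop 0] with L hL
      rw [norm_div, Complex.norm_real, Real.norm_eq_abs, abs_of_pos hL]
    simpa using h4.const_add (cl g)
  have t1 := t0 (x * I)
  have t2 := t0 (x * I + (1 + K * I))
  have c1 : Tendsto (fun L : ℝ => h (cl g + x * I / L)) atTop (𝓝 (h (cl g))) :=
    h1.continuousAt.tendsto.comp t1
  have c2 : Tendsto (fun L : ℝ => h (cl g + (x * I + (1 + K * I)) / L)) atTop (𝓝 (h (cl g))) :=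
    h1.continuousAt.tendsto.comp t2
  have c3 := (c1.mul (c2.inv₀ h2)).const_mul ((x * I / (x * I + (1 + K * I))) ^ m)
  rw [mul_inv_cancel₀ h2, mul_one] at c3
  refine c3.congr' ?_
  filter_upwards [t1.eventually h3, t2.eventually h3, eventually_gt_atTop 0] with L e1 e2 hL
  have hL0 : (L : ℂ) ≠ 0 := by exact_mod_cast hL.ne'
  have e3 : cl (g + x / L) = cl g + x * I / L := by
    simp only [cl]
    push_cast
    ring
  have e4 : cl (g + x / L) + (1 + K * I) / L = cl g + (x * I + (1 + K * I)) / L := by
    rw [e3]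
    ring
  rw [e4, e3, e1, e2, add_sub_cancel_left, add_sub_cancel_left, mul_inv, div_pow, div_pow, div_pow]
  field_simp

theorem t_LIM (h1 : Pool.Agent.Q286.BD.S_inv) (h2 : S_PRH) (h3 : S_RATIO) (h4 : S_LOWB)
    (h5 : S_UPL) : S_LIM := by
  intro O hRH β φ hβ hφ g x hg
  set m := mz O.toLFn g with hm
  have hm1 : 1 ≤ m := mz_pos hRH hg
  rw [← h1 β φ hβ hφ m x hm1]
  obtain ⟨C1, hC1, hr⟩ := h3 O hRH
  obtain ⟨C2, hC2, hl⟩ := h4 O hRH
  obtain ⟨C3, hC3, hu⟩ := h5 O hRH
  obtain ⟨ε, C4, c, hε, hC4, hc, hdec⟩ := hφ.dec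
  set T : ℝ := |g| + |x| with hT
  have hT0 : 0 ≤ T := by positivity
  set A0 : ℝ := T + 16 with hA0
  set C : ℝ := C1 + C2 + C3 with hC
  have hC0 : 0 < C := by positivity
  obtain ⟨M, hM, hgr⟩ := growth2 A0 C c β hc hβ (by linarith) hC0
  set Fn : ℝ → ℝ → ℂ := fun L K => O.L (cl (g + x / L)) *
    ((O.L (cl (g + x / L) + (1 + K * I) / L))⁻¹ * Lap φ (1 + K * I) / (1 + K * I)) with hFn
  have key : Tendsto (fun L : ℝ => ∫ K : ℝ, Fn L K) atTop
      (𝓝 (∫ K : ℝ, (x * I / (x * I + (1 + K * I))) ^ m * Lap φ (1 + K * I) / (1 + K * I))) := by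
    refine tendsto_integral_filter_of_dominated_convergence (fun K => C4 * Real.exp 1 * M / (1 + K ^ 2)) ?_ ?_
      integrable_bd ?_
    · filter_upwards [eventually_gt_atTop 0] with L hL
      have h6 := (h2 O hRH β φ hβ hφ L 1 (g + x / L) hL one_pos).1
      simp only [ofReal_one] at h6
      exact (h6.const_mul _).aestronglyMeasurable
    · filter_upwards [eventually_ge_atTop 1] with L hL
      refine Eventually.of_forall fun K => ?_
      have hL0 : 0 < L := by linarith
      set t : ℝ := g + x / L with ht
      have htT : |t| ≤ T := by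
        have h7 := abs_add_le g (x / L)
        have h8 : |x / L| ≤ |x| := by
          rw [abs_div, abs_of_pos hL0]
          exact div_le_self (abs_nonneg x) hL
        linarith
      have hK0 : 0 ≤ |K| := abs_nonneg K
      have hAK : 1 ≤ A0 + |K| := by linarith
      have hlogAK : Real.log A0 ≤ Real.log (A0 + |K|) := Real.log_le_log (by linarith) (by linarith)
      have hlogA : 0 ≤ Real.log A0 := Real.log_nonneg (by linarith)
      have hlog2K : Real.log (2 + |K|) ≤ Real.log (A0 + |K|) := Real.log_le_log (by linarith) (by linarith)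
      have hlog2K0 : 0 ≤ Real.log (2 + |K|) := Real.log_nonneg (by linarith)
      have hMLt : ML t ≤ Real.log A0 := (ML_le t).trans (Lam_mono htT)
      have hML0 := ML_nonneg t
      set ℓ : ℝ := Real.log (A0 + |K|) with hℓ
      have hℓ0 : 1 ≤ ℓ := by
        have h9 := Lam_ge 0
        have h10 : Lam 0 ≤ Real.log (T + 16) := Lam_mono (by simpa using hT0)
        linarith
      have hpt : cl t + (1 + K * I) / L = 1 / 2 + ((1 / L : ℝ) : ℂ) + ((t + K / L : ℝ) : ℂ) * I := by
        simp only [cl]
        push_cast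
        ring
      -- the ratio
      have hrat : ‖O.L (cl t)‖ * ‖(O.L (cl t + (1 + K * I) / L))⁻¹‖ ≤ Real.exp (C * ℓ ^ 2) := by
        rw [hpt]
        rcases le_or_gt |K| L with hK | hK
        · have h11 := hr t (K / L) (1 / L) (by positivity) (by
            rw [div_le_one hL0]
            exact hL) (by
            rw [abs_div, abs_of_pos hL0]
            have h12 : |K| / L ≤ 1 := by
              rw [div_le_one hL0]
              exact hK
            have := abs_nonneg t
            linarith)
          have h13 : |K / L| / (1 / L) = |K| := by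
            rw [abs_div, abs_of_pos hL0]
            field_simp
          rw [h13, ← ofReal_add] at h11
          have h14 : Real.exp (C1 * ML t * Real.log (2 + |K|)) ≤ Real.exp (C * ℓ ^ 2) := by
            apply Real.exp_le_exp.2
            calc C1 * ML t * Real.log (2 + |K|) ≤ C * ℓ * ℓ := by
                  have h15 : C1 ≤ C := by
                    rw [hC]
                    linarith
                  have h16 : ML t ≤ ℓ := hMLt.trans hlogAK
                  gcongr
              _ = C * ℓ ^ 2 := by ring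
          rw [norm_inv]
          rcases (norm_nonneg (O.L (1 / 2 + ((1 / L : ℝ) : ℂ) + ((t + K / L : ℝ) : ℂ) * I))).eq_or_lt with h0 | h0
          · rw [← h0]
            simp
            positivity
          · rw [← div_eq_mul_inv, div_le_iff₀ h0]
            refine h11.trans ?_
            gcongr
        · have h11 := hu t
          have h12 := hl (t + K / L) (1 / L) (by positivity)
          have h13 : ‖(O.L (1 / 2 + ((1 / L : ℝ) : ℂ) + ((t + K / L : ℝ) : ℂ) * I))⁻¹‖ ≤
              Real.exp (C2 * Lam (t + K / L) * Real.log (2 + 1 / (1 / L))) := by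
            rw [norm_inv]
            rw [Real.exp_neg] at h12
            rw [inv_le_comm₀ (lt_of_lt_of_le (by positivity) h12) (Real.exp_pos _)]
            exact h12
          have h14 : Lam (t + K / L) ≤ ℓ := by
            unfold Lam
            apply Real.log_le_log
            · have := abs_nonneg (t + K / L)
              linarith
            · have h15 := abs_add_le t (K / L)
              have h16 : |K / L| ≤ |K| := by
                rw [abs_div, abs_of_pos hL0]
                exact div_le_self (abs_nonneg K) hL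
              linarith
          have h17 : Real.log (2 + 1 / (1 / L)) ≤ ℓ := by
            rw [one_div_one_div]
            refine le_trans ?_ hlog2K
            apply Real.log_le_log (by linarith) (by linarith)
          have h18 : 0 ≤ Real.log (2 + 1 / (1 / L)) := by
            rw [one_div_one_div]
            exact Real.log_nonneg (by linarith)
          have h19 : 0 ≤ Lam (t + K / L) := by
            have := Lam_ge (t + K / L)
            linarith
          calc ‖O.L (cl t)‖ * ‖(O.L (1 / 2 + ((1 / L : ℝ) : ℂ) + ((t + K / L : ℝ) : ℂ) * I))⁻¹‖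
              ≤ Real.exp (C3 * ML t) * Real.exp (C2 * Lam (t + K / L) * Real.log (2 + 1 / (1 / L))) := by
                gcongr
            _ = Real.exp (C3 * ML t + C2 * Lam (t + K / L) * Real.log (2 + 1 / (1 / L))) := by
                rw [Real.exp_add]
            _ ≤ Real.exp (C * ℓ ^ 2) := by
                apply Real.exp_le_exp.2
                have h20 : C3 * ML t ≤ C3 * (ℓ * ℓ) := by
                  have h21 : ML t ≤ ℓ := hMLt.trans hlogAK
                  have h22 : ℓ ≤ ℓ * ℓ := by nlinarith
                  gcongr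
                  linarith
                have h23 : C2 * Lam (t + K / L) * Real.log (2 + 1 / (1 / L)) ≤ C2 * ℓ * ℓ := by
                  gcongr
                have h24 : 0 ≤ C1 * (ℓ * ℓ) := by positivity
                calc C3 * ML t + C2 * Lam (t + K / L) * Real.log (2 + 1 / (1 / L)) ≤
                      C3 * (ℓ * ℓ) + C2 * ℓ * ℓ + C1 * (ℓ * ℓ) := by linarith
                  _ = C * ℓ ^ 2 := by
                      rw [hC]
                      ring
      have hlap : ‖Lap φ (1 + K * I)‖ ≤ C4 * Real.exp 1 * Real.exp (-(c * |K| ^ β)) := by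
        refine (hdec _).trans ?_
        have e1 : ((1 : ℂ) + K * I).re = 1 := by simp
        have e2 : ((1 : ℂ) + K * I).im = K := by simp
        rw [e1, e2]
        have e3 : max (1 : ℝ) 0 - ε * max (-1 : ℝ) 0 - c * |K| ^ β = 1 + -(c * |K| ^ β) := by
          rw [max_eq_left (by norm_num : (0 : ℝ) ≤ 1), max_eq_right (by norm_num : (-1 : ℝ) ≤ 0)]
          ring
        rw [e3, Real.exp_add]
        apply le_of_eq
        ring
      have hden : 1 ≤ ‖(1 + K * I : ℂ)‖ := by
        have := Complex.re_le_norm (1 + K * I : ℂ)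
        simpa using this
      rw [hFn]
      simp only
      rw [norm_mul, norm_div, norm_mul]
      calc ‖O.L (cl t)‖ * (‖(O.L (cl t + (1 + K * I) / L))⁻¹‖ * ‖Lap φ (1 + K * I)‖ / ‖(1 + K * I : ℂ)‖)
          = (‖O.L (cl t)‖ * ‖(O.L (cl t + (1 + K * I) / L))⁻¹‖) * ‖Lap φ (1 + K * I)‖ / ‖(1 + K * I : ℂ)‖ := by
            ring
        _ ≤ Real.exp (C * ℓ ^ 2) * (C4 * Real.exp 1 * Real.exp (-(c * |K| ^ β))) / 1 := by gcongr
        _ = C4 * Real.exp 1 * (Real.exp (C * ℓ ^ 2) * Real.exp (-(c * |K| ^ β))) := by ring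
        _ ≤ C4 * Real.exp 1 * (M / (1 + K ^ 2)) := by
            gcongr
            exact hgr K
        _ = _ := by ring
    · refine Eventually.of_forall fun K => ?_
      have h6 := (ratio_lim hRH (g := g) x K).mul_const (Lap φ (1 + K * I) / (1 + K * I))
      have e1 : (x * I / (x * I + (1 + K * I))) ^ mz O.toLFn g * (Lap φ (1 + K * I) / (1 + K * I)) =
          (x * I / (x * I + (1 + K * I))) ^ m * Lap φ (1 + K * I) / (1 + K * I) := by
        rw [← hm]
        ring
      rw [e1] at h6
      refine h6.congr fun L => ?_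
      rw [hFn]
      simp only
      ring
  have key2 := key.const_mul (1 / (2 * (Real.pi : ℂ)))
  refine key2.congr' ?_
  filter_upwards [eventually_gt_atTop 0] with L hL
  have h6 := (h2 O hRH β φ hβ hφ L 1 (g + x / L) hL one_pos).2
  simp only [ofReal_one] at h6
  rw [h6, hFn]
  simp only
  rw [integral_const_mul]
  ring

end Pool.Agent.Q66.GB
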